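import Pool.Agent.Lib.MP_86f1d3_an.NoRankOne
import Pool.Agent.Lib.MP_86f1d3_an.Realise

/-!
# A pair with a strong Shimorin certificate but no certificate of rank one

The definitions are in `Pool.Agent.Lib.MP_86f1d3_an.Defs`.  The kernel `ℓ` of the counterexample is
`1 / (1 - A)` with `A = (F F̄ + 4900000000 Q Q̄) / (G Ḡ)` for explicit polynomials `F`, `G`, `Q` with
coefficients in `ℤ[i]` (see `Data` and `Positive`), and `Ω` is the connected component of `0` in
`{z : |z| < 1, A(z,z) < 1}`.  That the spaces which the definition of a multiplier quantifies over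
exist for every kernel is `exists_realisation` in `Realise`.
-/

open Pool.Agent.Lib.MP_86f1d3_an

/-- **The Bergman kernel and rank one certificates.**  There are a domain `Ω` with
`0 ∈ Ω ⊆ 𝔻` and a holomorphic kernel `ℓ` on `Ω` such that the pair `(𝔟, ℓ)` has a strong Shimorin
certificate on `Ω`, but none of the form `1 / (1 - G(z) conj G(w))`. -/
theorem Pool.Agent.Results.MP_86f1d3_an.NoRankOneCertificate.result :
    ∃ Ω : Set ℂ, IsOpen Ω ∧ IsConnected Ω ∧ (0 : ℂ) ∈ Ω ∧ Ω ⊆ Metric.ball (0 : ℂ) 1 ∧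
      ∃ l : ℂ → ℂ → ℂ, IsHolomorphicKernel Ω l ∧
        (∃ s : Ω → Ω → ℂ, IsCertificate (onDomain Ω bergman) (onDomain Ω l) s) ∧
        ¬ ∃ G : Ω → ℂ, IsCertificate (onDomain Ω bergman) (onDomain Ω l) (rankOne G) := by
  refine ⟨dom, isOpen_dom, isConnected_dom, zero_mem_dom, fun z hz => ?_, ell,
    isHolomorphicKernel_ell, ⟨_, isCertificate_ell⟩, not_isCertificate_rankOne⟩
  simpa using norm_lt_of_mem hz
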